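import Pool.Agent.Helper65.SG.Goals

/-!
# Project SG (MP_a41896_nt), packet NQD: degrees of the reduction
-/

set_option autoImplicit false

open MvPolynomial

namespace Pool.Agent.Helper40.SGT

open WeierstrassCurve Height
open Pool.Agent.Helper29.BL Pool.Agent.Helper92.Ru Pool.Agent.Helper42.SG
open Pool.Agent.Helper65.SG

theorem deg_bf {K : Type} [Field K] {σ : Type} (V : Affine K) (h : σ) (x : MvPolynomial σ K)
    (k : ℕ) (hx : x.degreeOf h ≤ k) :
    (Bf (V.map (algebraMap K (MvPolynomial σ K))) x).degreeOf h ≤ 3 * k := by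
  have h1 : Bf (V.map (algebraMap K (MvPolynomial σ K))) x =
      C 4 * x ^ 3 + C V.b₂ * x ^ 2 + C (2 * V.b₄) * x + C V.b₆ := by
    unfold Bf
    rw [map_b₂, map_b₄, map_b₆]
    simp only [MvPolynomial.algebraMap_eq, map_mul, map_ofNat]
  have hc : ∀ (c : K) (j : ℕ), j ≤ 3 → (C c * x ^ j).degreeOf h ≤ 3 * k := fun c j hj =>
    (degreeOf_C_mul_le _ _ _).trans ((degreeOf_pow_le _ _ _).trans (Nat.mul_le_mul hj hx))
  rw [h1]
  refine (degreeOf_add_le _ _ _).trans (max_le ((degreeOf_add_le _ _ _).trans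
    (max_le ((degreeOf_add_le _ _ _).trans (max_le (hc _ _ le_rfl) (hc _ _ (by norm_num)))) ?_)) ?_)
  · have := hc (2 * V.b₄) 1 (by norm_num)
    rwa [pow_one] at this
  · rw [degreeOf_C]
    exact Nat.zero_le _

theorem t_NQD : NQD := by
  intro K _ W n F h d hd
  classical
  unfold red
  refine (degreeOf_sum_le _ _ _).trans (Finset.sup_le fun m hm => ?_)
  refine (degreeOf_C_mul_le _ _ _).trans ((degreeOf_prod_le _ _ _).trans ?_)
  rw [Finset.sum_eq_single h]
  · refine (degreeOf_mul_le _ _ _).trans ?_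
    have h1 : (X h ^ m (Sum.inl h) : MvPolynomial (Fin (2 * n + 2)) K).degreeOf h ≤
        m (Sum.inl h) := le_of_eq (degreeOf_X_self_pow _ _)
    have h2 := (degreeOf_pow_le h (Bf (mapW (MvPolynomial (Fin (2 * n + 2)) K) W (h.val % 2)) (X h))
      (m (Sum.inr h) / 2)).trans (Nat.mul_le_mul_left _
        (deg_bf (W (h.val % 2)) h (X h) 1 (le_of_eq (degreeOf_X_self _))))
    have h3 := hd m hm
    omega
  · intro h' _ hne
    have h1 : (X h' : MvPolynomial (Fin (2 * n + 2)) K).degreeOf h ≤ 0 :=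
      le_of_eq (degreeOf_X_of_ne hne.symm)
    have h2 := (degreeOf_pow_le h (X h' : MvPolynomial (Fin (2 * n + 2)) K)
      (m (Sum.inl h'))).trans (Nat.mul_le_mul_left _ h1)
    have h3 := (degreeOf_pow_le h (Bf (mapW (MvPolynomial (Fin (2 * n + 2)) K) W (h'.val % 2))
      (X h')) (m (Sum.inr h') / 2)).trans (Nat.mul_le_mul_left _
        (deg_bf (W (h'.val % 2)) h (X h') 0 h1))
    have h4 := degreeOf_mul_le h (X h' ^ m (Sum.inl h') : MvPolynomial (Fin (2 * n + 2)) K)
      (Bf (mapW (MvPolynomial (Fin (2 * n + 2)) K) W (h'.val % 2)) (X h') ^ (m (Sum.inr h') / 2))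
    omega
  · intro h0
    exact absurd (Finset.mem_univ _) h0

end Pool.Agent.Helper40.SGT
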